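import Pool.Agent.MWK.Stmts

/-!
# MWK row CLO (helper39)

Closed factors depend only on their letters.
-/

set_option autoImplicit false

namespace Pool.Agent.MWK.H39

open Pool.Agent.Helper14_MV Pool.Agent.Helper2_MV

theorem rtrans {θ : FIC} {a b c : List ℕ} (h : RR θ a b) (h' : RR θ b c) : RR θ a c :=
  θ.trans h h'

theorem dbl_nil : dbl [] = [] := rfl

theorem dbl_cons (z : ℕ) (Z : List ℕ) : dbl (z :: Z) = [z, z] ++ dbl Z := rfl

theorem mem_dbl {Z : List ℕ} {l : ℕ} : l ∈ dbl Z ↔ l ∈ Z := by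
  induction Z with
  | nil => rw [dbl_nil]
  | cons z Z ih =>
    rw [dbl_cons, List.mem_append, ih, List.mem_cons, List.mem_cons, List.mem_cons]
    simp

theorem count_dbl {Z : List ℕ} {l : ℕ} (h : l ∈ Z) : 2 ≤ (dbl Z).count l := by
  induction Z with
  | nil => simp at h
  | cons z Z ih =>
    rw [dbl_cons, List.count_append]
    by_cases hz : l = z
    · subst hz
      simp
    · have := ih ((List.mem_cons.1 h).resolve_left hz)
      omega

/-- `x^2 ~ x^3` -/
theorem sq {θ : FIC} (hK : Kc θ) (x : ℕ) : RR θ [x, x] [x, x, x] := by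
  have h := hK.g.sub (fun c => if c = 0 then [x] else [])
  simpa using h

theorem comm2 {θ : FIC} (hK : Kc θ) (x y : ℕ) : RR θ [x, x, y, y] [y, y, x, x] := by
  have h := hK.c.sub (fun c => if c = 0 then [x] else [y])
  simpa using h

theorem absorb {θ : FIC} (hK : Kc θ) {l : ℕ} : ∀ {Z : List ℕ}, l ∈ Z →
    RR θ ([l] ++ dbl Z) (dbl Z)
  | [], h => by simp at h
  | z :: Z, h => by
    rw [dbl_cons]
    by_cases hz : l = z
    · subst hz
      have h1 := (sq hK l).symm.append (RR.refl (β := θ) (dbl Z))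
      exact h1
    · have ih := absorb hK ((List.mem_cons.1 h).resolve_left hz)
      have h1 : RR θ ([l, l] ++ dbl Z) (dbl Z) :=
        rtrans ((RR.refl (β := θ) [l]).append ih) ih
      have h2 : RR θ ([l, l] ++ ([z, z] ++ dbl Z)) ([z, z] ++ dbl Z) := by
        have h3 : RR θ ([l, l, z, z] ++ dbl Z) ([z, z, l, l] ++ dbl Z) :=
          (comm2 hK l z).append (RR.refl _)
        have h4 : RR θ ([z, z] ++ ([l, l] ++ dbl Z)) ([z, z] ++ dbl Z) :=
          (RR.refl _).append h1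
        exact rtrans h3 h4
      have h5 : RR θ ([l] ++ ([l, l] ++ ([z, z] ++ dbl Z))) ([l, l] ++ ([z, z] ++ dbl Z)) :=
        (sq hK l).symm.append (RR.refl ([z, z] ++ dbl Z))
      have h6 : RR θ ([l] ++ ([z, z] ++ dbl Z)) ([l] ++ ([l, l] ++ ([z, z] ++ dbl Z))) :=
        (RR.refl _).append h2.symm
      exact rtrans h6 (rtrans h5 h2)

theorem absorbs {θ : FIC} (hK : Kc θ) {Z : List ℕ} : ∀ {M : List ℕ}, (∀ l ∈ M, l ∈ Z) →
    RR θ (M ++ dbl Z) (dbl Z)
  | [], _ => RR.refl _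
  | m :: M, h => by
    have ih := absorbs hK (M := M) (fun l hl => h l (List.mem_cons_of_mem _ hl))
    have h1 : RR θ ([m] ++ (M ++ dbl Z)) ([m] ++ dbl Z) := (RR.refl _).append ih
    exact rtrans h1 (absorb hK (h m (List.mem_cons_self ..)))

theorem dbl_rel (hfre : FreStmt) {θ : FIC} (hK : Kc θ) {Z Z' : List ℕ}
    (h : ∀ l, l ∈ Z ↔ l ∈ Z') : RR θ (dbl Z) (dbl Z') := by
  have h1 := hfre θ hK (dbl Z) (dbl Z') [] (fun l hl => count_dbl ((h l).2 (mem_dbl.1 hl)))
  rw [List.append_nil, List.append_nil] at h1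
  exact rtrans h1.symm (absorbs hK (fun l hl => (h l).1 (mem_dbl.1 hl)))

theorem to_dbl (hfre : FreStmt) {θ : FIC} (hK : Kc θ) {P Z : List ℕ} (Q : List ℕ)
    (h : ∀ l ∈ Z, 2 ≤ (P ++ Z).count l) : RR θ (P ++ Z ++ Q) (P ++ dbl Z ++ Q) := by
  have h1 := hfre θ hK (P ++ Z) (dbl Z) Q (fun l hl => h l (mem_dbl.1 hl))
  have h2 : RR θ (P ++ (Z ++ dbl Z) ++ Q) (P ++ dbl Z ++ Q) :=
    ((RR.refl P).append (absorbs hK (fun _ hl => hl))).append (RR.refl Q)
  rw [← List.append_assoc P Z] at h2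
  exact rtrans h1.symm h2

theorem clo (hfre : FreStmt) : CloStmt := by
  intro θ hK P Z Z' Q h hZ hZ'
  have h1 : RR θ (P ++ dbl Z ++ Q) (P ++ dbl Z' ++ Q) :=
    ((RR.refl P).append (dbl_rel hfre hK h)).append (RR.refl Q)
  exact rtrans (to_dbl hfre hK Q hZ) (rtrans h1 (to_dbl hfre hK Q hZ').symm)

end Pool.Agent.MWK.H39
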